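import Pool.Agent.N479.SK.Kite
import Pool.Agent.N479.SR.Rect

/-!
# Every admissible configuration is Ramsey

A rectangle in the plane `x₃ = 0` together with two points of the same height, with the conditions
of the problem: the six points form a Ramsey set.
-/

set_option autoImplicit false

namespace Pool.Agent.Results.MP_e0af59_co.AdmissibleAreRamsey

open Pool.Agent.N479.SK Pool.Agent.N479.ER

/-- The inclusion of `ℝ^m` in `ℝ^n` by the first `m` coordinates (`m ≤ n`). -/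
noncomputable def incl {m : ℕ} (n : ℕ) (x : EuclideanSpace ℝ (Fin m)) :
    EuclideanSpace ℝ (Fin n) :=
  WithLp.toLp 2 (fun j : Fin n => if h : (j : ℕ) < m then x ⟨j, h⟩ else 0)

/-- `X ⊆ ℝ^m` is Ramsey: for every positive integer `k` there is `n ≥ m` such that for every
colouring `c` of `ℝ^n` with `k` colours there is an isometry `φ` of `ℝ^n` for which `φ X` is
monochromatic. -/
def IsRamsey {m : ℕ} (X : Set (EuclideanSpace ℝ (Fin m))) : Prop :=
  ∀ k : ℕ, 0 < k → ∃ n : ℕ, m ≤ n ∧ ∀ c : EuclideanSpace ℝ (Fin n) → Fin k,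
    ∃ φ : EuclideanSpace ℝ (Fin n) ≃ᵢ EuclideanSpace ℝ (Fin n), ∃ i : Fin k,
      ∀ x ∈ X, c (φ (incl n x)) = i

/-- `a 0, a 1, a 2, a 3` are the vertices, in this cyclic order, of a rectangle in the plane
`x₃ = 0`. -/
structure IsRectangle (a : Fin 4 → EuclideanSpace ℝ (Fin 3)) : Prop where
  plane : ∀ i, a i 2 = 0
  side : a 1 ≠ a 0
  side' : a 3 ≠ a 0
  parallelogram : a 1 - a 0 = a 2 - a 3
  right_angle : inner ℝ (a 1 - a 0) (a 3 - a 0) = 0

/-- The six points `a 0, a 1, a 2, a 3, p, q` form an admissible configuration. The centre `c` of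
the rectangle is the midpoint of `a 0` and `a 2`, and `m` is the midpoint of `p` and `q`. -/
structure Admissible (a : Fin 4 → EuclideanSpace ℝ (Fin 3)) (p q : EuclideanSpace ℝ (Fin 3)) :
    Prop where
  rectangle : IsRectangle a
  ne : p ≠ q
  same_height : p 2 = q 2
  height_pos : 0 < p 2
  /-- condition 1 -/
  off_centre : ¬ ((midpoint ℝ p q) 0 = (midpoint ℝ (a 0) (a 2)) 0 ∧
    (midpoint ℝ p q) 1 = (midpoint ℝ (a 0) (a 2)) 1)
  /-- condition 2 -/
  perp : inner ℝ (midpoint ℝ (a 0) (a 2) - midpoint ℝ p q) (q - p) = 0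
  /-- condition 3 -/
  angle_irrational : ∀ r : ℚ, InnerProductGeometry.angle (q - p) (a 1 - a 0) ≠ r * Real.pi

/-- Parseval in the plane -/
lemma plane_iso {u₀ u₁ v₀ v₁ A B : ℝ} (hA : A ^ 2 = u₀ ^ 2 + u₁ ^ 2) (hB : B ^ 2 = v₀ ^ 2 + v₁ ^ 2)
    (hA0 : A ≠ 0) (hB0 : B ≠ 0) (h : u₀ * v₀ + u₁ * v₁ = 0) (x y : ℝ) :
    ((x * u₀ + y * u₁) / A) ^ 2 + ((x * v₀ + y * v₁) / B) ^ 2 = x ^ 2 + y ^ 2 := by
  rw [div_pow, div_pow, div_add_div _ _ (pow_ne_zero 2 hA0) (pow_ne_zero 2 hB0),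
    div_eq_iff (mul_ne_zero (pow_ne_zero 2 hA0) (pow_ne_zero 2 hB0)), hA, hB]
  linear_combination ((x ^ 2 - y ^ 2) * (u₀ * v₀ - u₁ * v₁) +
    2 * x * y * (u₁ * v₀ + u₀ * v₁)) * h

/-- Every admissible configuration is Ramsey. -/
theorem result : ∀ (a : Fin 4 → EuclideanSpace ℝ (Fin 3)) (p q : EuclideanSpace ℝ (Fin 3)),
    Admissible a p q → IsRamsey {a 0, a 1, a 2, a 3, p, q} := by
  intro a p q hX k hk
  have : Nonempty (Fin k) := ⟨⟨0, hk⟩⟩
  obtain ⟨hR, hne, hh, hh0, -, hperp, hangle⟩ := hX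
  obtain ⟨hpl, hs, hs', hpar, hra⟩ := hR
  -- coordinates
  set U₀ := a 1 0 - a 0 0 with hU₀
  set U₁ := a 1 1 - a 0 1 with hU₁
  set V₀ := a 3 0 - a 0 0 with hV₀
  set V₁ := a 3 1 - a 0 1 with hV₁
  have hort : U₀ * V₀ + U₁ * V₁ = 0 := by
    have h1 := hra
    simp [PiLp.inner_apply, Fin.sum_univ_three, hpl] at h1
    rw [hU₀, hU₁, hV₀, hV₁]
    linarith
  have hUpos : 0 < U₀ ^ 2 + U₁ ^ 2 := by
    rcases (add_nonneg (sq_nonneg U₀) (sq_nonneg U₁)).lt_or_eq with h | h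
    · exact h
    · exfalso
      have e0 : U₀ = 0 := by nlinarith [sq_nonneg U₀, sq_nonneg U₁]
      have e1 : U₁ = 0 := by nlinarith [sq_nonneg U₀, sq_nonneg U₁]
      apply hs
      ext i
      fin_cases i
      · exact sub_eq_zero.mp e0
      · exact sub_eq_zero.mp e1
      · exact (hpl 1).trans (hpl 0).symm
  have hVpos : 0 < V₀ ^ 2 + V₁ ^ 2 := by
    rcases (add_nonneg (sq_nonneg V₀) (sq_nonneg V₁)).lt_or_eq with h | h
    · exact h
    · exfalso
      have e0 : V₀ = 0 := by nlinarith [sq_nonneg V₀, sq_nonneg V₁]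
      have e1 : V₁ = 0 := by nlinarith [sq_nonneg V₀, sq_nonneg V₁]
      apply hs'
      ext i
      fin_cases i
      · exact sub_eq_zero.mp e0
      · exact sub_eq_zero.mp e1
      · exact (hpl 3).trans (hpl 0).symm
  set A := √(U₀ ^ 2 + U₁ ^ 2) with hAd
  set B := √(V₀ ^ 2 + V₁ ^ 2) with hBd
  have hA : A ^ 2 = U₀ ^ 2 + U₁ ^ 2 := Real.sq_sqrt hUpos.le
  have hB : B ^ 2 = V₀ ^ 2 + V₁ ^ 2 := Real.sq_sqrt hVpos.le
  have hA0 : A ≠ 0 := (Real.sqrt_pos.mpr hUpos).ne'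
  have hB0 : B ≠ 0 := (Real.sqrt_pos.mpr hVpos).ne'
  have ha20 : a 2 0 = a 0 0 + U₀ + V₀ := by
    have := congrArg (fun z : EuclideanSpace ℝ (Fin 3) => z 0) hpar
    simp at this
    rw [hU₀, hV₀]; linarith
  have ha21 : a 2 1 = a 0 1 + U₁ + V₁ := by
    have := congrArg (fun z : EuclideanSpace ℝ (Fin 3) => z 1) hpar
    simp at this
    rw [hU₁, hV₁]; linarith
  set c₀ := a 0 0 + (U₀ + V₀) / 2 with hc₀
  set c₁ := a 0 1 + (U₁ + V₁) / 2 with hc₁
  -- the isometry onto the standard position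
  let Φ : EuclideanSpace ℝ (Fin 3) → Fin 3 → ℝ := fun z =>
    ![((z 0 - c₀) * U₀ + (z 1 - c₁) * U₁) / A, ((z 0 - c₀) * V₀ + (z 1 - c₁) * V₁) / B, z 2]
  have hΦ : ∀ z z', sq (Φ z) (Φ z') = sq z.ofLp z'.ofLp := by
    intro z z'
    have h1 := plane_iso hA hB hA0 hB0 hort (z 0 - z' 0) (z 1 - z' 1)
    simp only [N479.ER.sq, Fin.sum_univ_three, Φ, Matrix.cons_val_zero, Matrix.cons_val_one,
      Matrix.cons_val]
    rw [← h1]
    ring
  -- the parameters
  have hq1 : (Φ q) 0 ≠ (Φ p) 0 := by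
    intro h
    have h1 : inner ℝ (q - p) (a 1 - a 0) = 0 := by
      simp only [Φ, Matrix.cons_val_zero] at h
      have h2 := (div_left_inj' hA0).mp h
      simp [PiLp.inner_apply, Fin.sum_univ_three, hpl]
      rw [hU₀, hU₁] at h2
      linarith
    have h2 := (InnerProductGeometry.inner_eq_zero_iff_angle_eq_pi_div_two _ _).mp h1
    apply hangle (1 / 2)
    rw [h2]
    push_cast
    ring
  have hq2 : (Φ q) 0 ^ 2 + (Φ q) 1 ^ 2 = (Φ p) 0 ^ 2 + (Φ p) 1 ^ 2 := by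
    have e1 := plane_iso hA hB hA0 hB0 hort (q 0 - c₀) (q 1 - c₁)
    have e2 := plane_iso hA hB hA0 hB0 hort (p 0 - c₀) (p 1 - c₁)
    simp only [Φ, Matrix.cons_val_zero, Matrix.cons_val_one]
    rw [e1, e2]
    have h1 := hperp
    simp [PiLp.inner_apply, Fin.sum_univ_three, midpoint_eq_smul_add, hh, ha20, ha21] at h1
    rw [hc₀, hc₁]
    linarith
  have hα0 : A / 2 ≠ 0 := div_ne_zero hA0 two_ne_zero
  have hβ0 : B / 2 ≠ 0 := div_ne_zero hB0 two_ne_zero
  let x : Option (Option (Bool × Bool)) → EuclideanSpace ℝ (Fin 3)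
    | none => q
    | some none => p
    | some (some (false, false)) => a 0
    | some (some (true, false)) => a 1
    | some (some (true, true)) => a 2
    | some (some (false, true)) => a 3
  have hAA : U₀ * U₀ + U₁ * U₁ = A ^ 2 := by rw [hA]; ring
  have hBB : V₀ * V₀ + V₁ * V₁ = B ^ 2 := by rw [hB]; ring
  have hx : ∀ i, Φ (x i) =
      rq (A / 2) (B / 2) ((Φ p) 0) ((Φ p) 1) ((Φ q) 0) ((Φ q) 1) (p 2) i := by
    have e10 : a 1 0 = a 0 0 + U₀ := by rw [hU₀]; ring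
    have e11 : a 1 1 = a 0 1 + U₁ := by rw [hU₁]; ring
    have e30 : a 3 0 = a 0 0 + V₀ := by rw [hV₀]; ring
    have e31 : a 3 1 = a 0 1 + V₁ := by rw [hV₁]; ring
    rintro (_ | _ | ⟨_ | _, _ | _⟩) <;> funext j <;> fin_cases j
    · rfl
    · rfl
    · exact hh.symm
    · rfl
    · rfl
    · rfl
    · change ((a 0 0 - c₀) * U₀ + (a 0 1 - c₁) * U₁) / A = sg false * (A / 2)
      rw [div_eq_iff hA0]
      simp only [sg, Bool.false_eq_true, if_false]
      linear_combination (-1 / 2) * hAA - 1 / 2 * hort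
    · change ((a 0 0 - c₀) * V₀ + (a 0 1 - c₁) * V₁) / B = sg false * (B / 2)
      rw [div_eq_iff hB0]
      simp only [sg, Bool.false_eq_true, if_false]
      linear_combination (-1 / 2) * hBB - 1 / 2 * hort
    · exact hpl 0
    · change ((a 3 0 - c₀) * U₀ + (a 3 1 - c₁) * U₁) / A = sg false * (A / 2)
      rw [div_eq_iff hA0, e30, e31]
      simp only [sg, Bool.false_eq_true, if_false]
      linear_combination (-1 / 2) * hAA + 1 / 2 * hort
    · change ((a 3 0 - c₀) * V₀ + (a 3 1 - c₁) * V₁) / B = sg true * (B / 2)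
      rw [div_eq_iff hB0, e30, e31]
      simp only [sg, if_true]
      linear_combination (1 / 2) * hBB - 1 / 2 * hort
    · exact hpl 3
    · change ((a 1 0 - c₀) * U₀ + (a 1 1 - c₁) * U₁) / A = sg true * (A / 2)
      rw [div_eq_iff hA0, e10, e11]
      simp only [sg, if_true]
      linear_combination (1 / 2) * hAA - 1 / 2 * hort
    · change ((a 1 0 - c₀) * V₀ + (a 1 1 - c₁) * V₁) / B = sg false * (B / 2)
      rw [div_eq_iff hB0, e10, e11]
      simp only [sg, Bool.false_eq_true, if_false]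
      linear_combination (-1 / 2) * hBB + 1 / 2 * hort
    · exact hpl 1
    · change ((a 2 0 - c₀) * U₀ + (a 2 1 - c₁) * U₁) / A = sg true * (A / 2)
      rw [div_eq_iff hA0, ha20, ha21]
      simp only [sg, if_true]
      linear_combination (1 / 2) * hAA + 1 / 2 * hort
    · change ((a 2 0 - c₀) * V₀ + (a 2 1 - c₁) * V₁) / B = sg true * (B / 2)
      rw [div_eq_iff hB0, ha20, ha21]
      simp only [sg, if_true]
      linear_combination (1 / 2) * hBB + 1 / 2 * hort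
    · exact hpl 2
  obtain ⟨n, hn, H⟩ := ramsey_of (k := k) x (by
    obtain ⟨ι, i, H⟩ := rect_main (κ := Fin k) (A / 2) (B / 2) ((Φ p) 0) ((Φ p) 1) ((Φ q) 0)
      ((Φ q) 1) (p 2) hα0 hβ0 hh0.ne' hq1 hq2
    refine ⟨ι, i, fun c => ?_⟩
    obtain ⟨f, hf, hc⟩ := H c
    refine ⟨f, fun i j => ?_, hc⟩
    rw [hf, ← hx, ← hx, hΦ])
  refine ⟨n, hn, fun c => ?_⟩
  obtain ⟨φ, hφ⟩ := H c
  refine ⟨φ, c (φ (incl n (x none))), fun y hy => ?_⟩
  have hy' : ∃ i, y = x i := by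
    simp only [Set.mem_insert_iff, Set.mem_singleton_iff] at hy
    rcases hy with h | h | h | h | h | h
    · exact ⟨some (some (false, false)), h⟩
    · exact ⟨some (some (true, false)), h⟩
    · exact ⟨some (some (true, true)), h⟩
    · exact ⟨some (some (false, true)), h⟩
    · exact ⟨some none, h⟩
    · exact ⟨none, h⟩
  obtain ⟨i, rfl⟩ := hy'
  exact hφ i none

end Pool.Agent.Results.MP_e0af59_co.AdmissibleAreRamsey
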